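import Pool.Agent.TH809.SY.Fibre

/-!
# Torus-invariant symplectic forms in classes that are degenerate on the torus

`X` is a connected smooth manifold and `T = V / Λ` a torus.  A `T`-invariant symplectic form on
`X × T` is the same thing as a symplectic form on `X × V` that is invariant under the translations
of `V`.  Its restriction to the fibres `{x} × V` is a constant form `B` on `V` (it is the
restriction to `T` of the cohomology class of the form).  We show:

* for every nonzero vector `v` of the kernel of `B`, the contraction of the form with `v` is a closed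
  one-form without zeros on `X`; it is not exact if `X` is compact;
* if every closed one-form on `X` has a zero, then `B` is nondegenerate and `X` is symplectic, and
  conversely every nondegenerate alternating `B` occurs if `X` is symplectic.

So a class on `X × T` whose restriction to `T` is degenerate contains no `T`-invariant symplectic
form, unless `X` has a closed one-form without zeros.  For `X` a closed surface of genus `g ≥ 2` and
`T = T^{2n-2}`, there are such classes `a` with `a^n > 0`, and `X × T` is a Kähler manifold.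
-/

set_option autoImplicit false

open Set
open scoped ContDiff Manifold

namespace Pool.Agent.Results.MP_bf98aa_gt.ClassesDegenerateOnFibres

/-- A symplectic form on a manifold `M` that is covered by the charts `c i` with values in `F`,
given by its coordinate expressions `w i` in the charts: smooth on the image of `c i`, alternating,
related by pull-back under the transition maps `c j ∘ (c i)⁻¹`, closed
(`D_u w(v, z) + D_v w(z, u) + D_z w(u, v) = 0`) and nondegenerate at every point. -/
structure IsSymplectic {ι M F : Type*} [TopologicalSpace M] [NormedAddCommGroup F]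
    [NormedSpace ℝ F] (c : ι → OpenPartialHomeomorph M F) (w : ι → F → F →L[ℝ] F →L[ℝ] ℝ) :
    Prop where
  smooth : ∀ i, ContDiffOn ℝ ∞ (w i) (c i).target
  alt : ∀ i, ∀ y ∈ (c i).target, ∀ u, w i y u u = 0
  compat : ∀ i j, ∀ x ∈ (c i).source ∩ (c j).source, ∀ u v,
    w i (c i x) u v = w j (c j x) (fderiv ℝ (c j ∘ (c i).symm) (c i x) u)
      (fderiv ℝ (c j ∘ (c i).symm) (c i x) v)
  closed : ∀ i, ∀ y ∈ (c i).target, ∀ u v z,
    fderiv ℝ (w i) y u v z + fderiv ℝ (w i) y v z u + fderiv ℝ (w i) y z u v = 0
  nondeg : ∀ i, ∀ y ∈ (c i).target, ∀ u, u ≠ 0 → ∃ v, w i y u v ≠ 0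

/-- A closed one-form on `M`, given by its coordinate expressions `α i` in the charts `c i`. -/
structure IsClosedOneForm {ι M F : Type*} [TopologicalSpace M] [NormedAddCommGroup F]
    [NormedSpace ℝ F] (c : ι → OpenPartialHomeomorph M F) (α : ι → F → F →L[ℝ] ℝ) : Prop where
  smooth : ∀ i, ContDiffOn ℝ ∞ (α i) (c i).target
  compat : ∀ i j, ∀ x ∈ (c i).source ∩ (c j).source, ∀ u,
    α i (c i x) u = α j (c j x) (fderiv ℝ (c j ∘ (c i).symm) (c i x) u)
  closed : ∀ i, ∀ y ∈ (c i).target, ∀ u v, fderiv ℝ (α i) y u v = fderiv ℝ (α i) y v u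

/-- the charts of the manifold `X` -/
def charts (E X : Type*) [TopologicalSpace E] [TopologicalSpace X] [ChartedSpace E X] :
    atlas E X → OpenPartialHomeomorph X E := fun e => e

/-- the charts `e × id` of the manifold `X × V`, for the charts `e` of `X` -/
def productCharts (E X V : Type*) [TopologicalSpace E] [TopologicalSpace X] [ChartedSpace E X]
    [TopologicalSpace V] : atlas E X → OpenPartialHomeomorph (X × V) (E × V) :=
  fun e => (charts E X e).prod (OpenPartialHomeomorph.refl V)

section

variable {E X V : Type*} [NormedAddCommGroup E] [NormedSpace ℝ E]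
  [NormedAddCommGroup V] [NormedSpace ℝ V] [TopologicalSpace X] [ChartedSpace E X]

/-- invariance under the translations of `V`: the coordinate expressions in the charts `e × id` do
not depend on the `V`-coordinate -/
def IsInvariant (w : atlas E X → E × V → (E × V) →L[ℝ] (E × V) →L[ℝ] ℝ) : Prop :=
  ∀ e, ∀ y ∈ (charts E X e).target, ∀ s t : V, w e (y, s) = w e (y, t)

/-- the restriction of the form `w` on `X × V` to all fibres `{x} × V` is the constant form `B` -/
def FibrePart (w : atlas E X → E × V → (E × V) →L[ℝ] (E × V) →L[ℝ] ℝ)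
    (B : V →L[ℝ] V →L[ℝ] ℝ) : Prop :=
  ∀ e, ∀ y ∈ (charts E X e).target, ∀ s v v' : V, w e (y, s) (0, v) (0, v') = B v v'

/-- the contraction of the form `w` on `X × V` with the vector `v` of `V`, as a one-form on `X` -/
noncomputable def contraction (w : atlas E X → E × V → (E × V) →L[ℝ] (E × V) →L[ℝ] ℝ) (v : V) :
    atlas E X → E → E →L[ℝ] ℝ :=
  fun e y => (w e (y, 0) (0, v)).comp (ContinuousLinearMap.inl ℝ E V)

end

/-- **Invariant symplectic forms on `X × V` and their part along the fibres.** -/
theorem result {E X V : Type*} [NormedAddCommGroup E] [NormedSpace ℝ E]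
    [NormedAddCommGroup V] [NormedSpace ℝ V] [FiniteDimensional ℝ V]
    [TopologicalSpace X] [ConnectedSpace X] [ChartedSpace E X] [IsManifold 𝓘(ℝ, E) ∞ X] :
    (∀ w, IsSymplectic (productCharts E X V) w → IsInvariant w →
      ∃ B : V →L[ℝ] V →L[ℝ] ℝ, FibrePart w B ∧ ∀ v, v ≠ 0 → (∀ v', B v v' = 0) →
        IsClosedOneForm (charts E X) (contraction w v) ∧
        (∀ e, ∀ y ∈ (charts E X e).target, contraction w v e y ≠ 0) ∧
        (CompactSpace X → ∀ f : X → ℝ, ∃ e, ∃ y ∈ (charts E X e).target,
          ¬ HasFDerivAt (f ∘ (charts E X e).symm) (contraction w v e y) y)) ∧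
    ((∀ α, IsClosedOneForm (charts E X) α → ∃ e, ∃ y ∈ (charts E X e).target, α e y = 0) →
      ∀ B : V →L[ℝ] V →L[ℝ] ℝ,
        (∃ w, IsSymplectic (productCharts E X V) w ∧ IsInvariant w ∧ FibrePart w B) ↔
          (∀ v, B v v = 0) ∧ (∀ v, v ≠ 0 → ∃ v', B v v' ≠ 0) ∧
            ∃ w, IsSymplectic (charts E X) w) := by
  have conv : ∀ w : atlas E X → E × V → (E × V) →L[ℝ] (E × V) →L[ℝ] ℝ,
      IsSymplectic (productCharts E X V) w → TH242.TI.Sym
        (fun e : atlas E X => TH242.TI.pc V (e : OpenPartialHomeomorph X E)) w :=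
    fun w hw => ⟨hw.smooth, hw.alt, hw.compat, hw.closed, hw.nondeg⟩
  have one : ∀ w : atlas E X → E × V → (E × V) →L[ℝ] (E × V) →L[ℝ] ℝ,
      IsSymplectic (productCharts E X V) w → IsInvariant w →
      ∀ B : V →L[ℝ] V →L[ℝ] ℝ, FibrePart w B → ∀ v, v ≠ 0 → (∀ v', B v v' = 0) →
        IsClosedOneForm (charts E X) (contraction w v) ∧
        (∀ e, ∀ y ∈ (charts E X e).target, contraction w v e y ≠ 0) := by
    intro w hw hi B hB v hv hBv
    have hi' : TH242.TI.Inv w := fun e y hy s => hi e y hy s 0
    refine ⟨⟨fun e => TH809.SY.LM_smooth (conv w hw) v e,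
      fun e e' x hx u => TH809.SY.LM_compat (conv w hw) v e e' hx.1 hx.2 u,
      fun e y hy a b => TH809.SY.LM_closed (conv w hw) hi' v e hy a b⟩, fun e y hy => ?_⟩
    exact TH809.SY.LM_ne (conv w hw) hy hv fun v' => (hB e y hy 0 v v').trans (hBv v')
  refine ⟨fun w hw hi => ?_, fun hX B => ⟨?_, ?_⟩⟩
  · have hi' : TH242.TI.Inv w := fun e y hy s => hi e y hy s 0
    obtain ⟨B, hB⟩ := TH242.TI.exists_B (conv w hw) hi'
    have hB' : FibrePart w B := by
      intro e y hy s v v'
      have h1 := hB e ((e : OpenPartialHomeomorph X E).symm y)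
        ((e : OpenPartialHomeomorph X E).map_target hy) v v'
      rw [(e : OpenPartialHomeomorph X E).right_inv hy] at h1
      rw [hi e y hy s 0]
      exact h1
    refine ⟨B, hB', fun v hv hBv => ?_⟩
    obtain ⟨h1, h2⟩ := one w hw hi B hB' v hv hBv
    exact ⟨h1, h2, fun _ f => TH809.SY.not_exact h2 f⟩
  · rintro ⟨w, hw, hi, hB⟩
    have hi' : TH242.TI.Inv w := fun e y hy s => hi e y hy s 0
    have hn : ∀ v, v ≠ 0 → ∃ v', B v v' ≠ 0 := by
      intro v hv
      by_contra hcon
      push Not at hcon
      obtain ⟨h1, h2⟩ := one w hw hi B hB v hv hcon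
      obtain ⟨e, y, hy, h0⟩ := hX _ h1
      exact h2 e y hy h0
    obtain ⟨x⟩ : Nonempty X := inferInstance
    refine ⟨fun v => ?_, hn, ?_⟩
    · have hy := (chartAt E x).map_source (mem_chart_source E x)
      rw [← hB ⟨chartAt E x, chart_mem_atlas E x⟩ _ hy 0 v v]
      exact hw.alt ⟨chartAt E x, chart_mem_atlas E x⟩ (_, 0) ⟨hy, mem_univ _⟩ (0, v)
    · obtain ⟨sg, hs⟩ := TH809.SY.forward_nd (conv w hw) hi'
        (fun e y hy v v' => hB e y hy 0 v v') hn
      exact ⟨sg, ⟨hs.smooth, hs.alt, hs.compat, hs.closed, hs.nondeg⟩⟩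
  · rintro ⟨ha, hn, sg, hs⟩
    obtain ⟨w, hw, hi, hB⟩ := TH809.SY.backward_nd (V := V) ha hn (sg := sg)
      ⟨hs.smooth, hs.alt, hs.compat, hs.closed, hs.nondeg⟩
    exact ⟨w, ⟨hw.smooth, hw.alt, hw.compat, hw.closed, hw.nondeg⟩,
      fun e y _ s t => hi e y s t, fun e y _ s v v' => hB e (y, s) v v'⟩

end Pool.Agent.Results.MP_bf98aa_gt.ClassesDegenerateOnFibres
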