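import Pool.Agent.TH835.HF.Main
import Pool.Agent.TH29.OT.Fwd
import Pool.Agent.TH29.OT.Bwd

/-!
# Symplectic forms on products with a torus of odd dimension

`X` is a closed connected smooth manifold and `T = V / Λ` a torus of odd dimension, `Λ` the
lattice spanned by a basis `b` of `V`.  A symplectic form on `X × T` is the same thing as a
symplectic form on `X × V` that is periodic under `Λ`.  For a point `x` of `X` the forms at the
points `(x, t)`, `t ∈ T`, are bilinear forms on one vector space `T_x X × V`.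

We show: if for each `x` the closed convex hull of these forms contains only nondegenerate forms,
or if for each `x` all these forms are positive on one endomorphism `J` of `T_x X × V`
(for instance: the form tames an almost complex structure that is invariant under `T`), then `X`
has a cosymplectic structure: a closed `1`-form without zeros and a closed `2`-form that is
nondegenerate on the kernel of the `1`-form.  In particular (Tischler) `X` fibres over the circle.
The form on `X × T` itself is not supposed to be invariant.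
-/

set_option autoImplicit false
set_option maxSynthPendingDepth 3

open Set
open scoped ContDiff Manifold

namespace Pool.Agent.Results.MP_bf98aa_gt.OddHullForms

/-- A symplectic form on a manifold `M` that is covered by the charts `c i` with values in `F`.
It is given by its coordinate expressions `w i` in the charts: `w i` is smooth on the image of
`c i`, with values in the bilinear forms on `F`, and
* `alt`: its values are alternating forms (so the `w i` are `2`-forms);
* `compat`: `w i` is the pull-back of `w j` under the transition map `c j ∘ (c i)⁻¹`, so that the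
  `w i` define one `2`-form on `M`;
* `closed`: the exterior derivative `dw(u, v, z) = D_u w(v, z) + D_v w(z, u) + D_z w(u, v)`
  vanishes;
* `nondeg`: the form is nondegenerate at every point. -/
structure IsSymplectic {ι M F : Type*} [TopologicalSpace M] [NormedAddCommGroup F]
    [NormedSpace ℝ F] (c : ι → OpenPartialHomeomorph M F) (w : ι → F → F →L[ℝ] F →L[ℝ] ℝ) :
    Prop where
  smooth : ∀ i, ContDiffOn ℝ ∞ (w i) (c i).target
  alt : ∀ i, ∀ y ∈ (c i).target, ∀ u, w i y u u = 0
  compat : ∀ i j, ∀ x ∈ (c i).source ∩ (c j).source, ∀ u v,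
    w i (c i x) u v = w j (c j x) (fderiv ℝ (c j ∘ (c i).symm) (c i x) u)
      (fderiv ℝ (c j ∘ (c i).symm) (c i x) v)
  closed : ∀ i, ∀ y ∈ (c i).target, ∀ u v z,
    fderiv ℝ (w i) y u v z + fderiv ℝ (w i) y v z u + fderiv ℝ (w i) y z u v = 0
  nondeg : ∀ i, ∀ y ∈ (c i).target, ∀ u, u ≠ 0 → ∃ v, w i y u v ≠ 0

/-- A cosymplectic structure on a manifold `M` that is covered by the charts `c i` with values in
`F`: a closed `1`-form `θ` without zeros and a closed `2`-form `σ` whose restriction to the kernel
of `θ` is nondegenerate at every point.  Both forms are given by their coordinate expressions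
`th i`, `sg i` in the charts: they are smooth (`smooth1`, `smooth2`) on the image of `c i`,
alternating (`alt`), compatible with the transition maps (`compat1`, `compat2`) and closed
(`closed1`: `D_u θ(v) = D_v θ(u)`, `closed2`); `ne`: `θ` has no zero; `nondeg`: for each vector
`u ≠ 0` in the kernel of `θ` there is a vector `v` in this kernel with `σ(u, v) ≠ 0`. -/
structure IsCosymplectic {ι M F : Type*} [TopologicalSpace M] [NormedAddCommGroup F]
    [NormedSpace ℝ F] (c : ι → OpenPartialHomeomorph M F) (th : ι → F → F →L[ℝ] ℝ)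
    (sg : ι → F → F →L[ℝ] F →L[ℝ] ℝ) : Prop where
  smooth1 : ∀ i, ContDiffOn ℝ ∞ (th i) (c i).target
  smooth2 : ∀ i, ContDiffOn ℝ ∞ (sg i) (c i).target
  alt : ∀ i, ∀ y ∈ (c i).target, ∀ u, sg i y u u = 0
  compat1 : ∀ i j, ∀ x ∈ (c i).source ∩ (c j).source, ∀ u,
    th i (c i x) u = th j (c j x) (fderiv ℝ (c j ∘ (c i).symm) (c i x) u)
  compat2 : ∀ i j, ∀ x ∈ (c i).source ∩ (c j).source, ∀ u v,
    sg i (c i x) u v = sg j (c j x) (fderiv ℝ (c j ∘ (c i).symm) (c i x) u)
      (fderiv ℝ (c j ∘ (c i).symm) (c i x) v)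
  closed1 : ∀ i, ∀ y ∈ (c i).target, ∀ u v, fderiv ℝ (th i) y u v = fderiv ℝ (th i) y v u
  closed2 : ∀ i, ∀ y ∈ (c i).target, ∀ u v z,
    fderiv ℝ (sg i) y u v z + fderiv ℝ (sg i) y v z u + fderiv ℝ (sg i) y z u v = 0
  ne : ∀ i, ∀ y ∈ (c i).target, ∃ v, th i y v ≠ 0
  nondeg : ∀ i, ∀ y ∈ (c i).target, ∀ u, u ≠ 0 → th i y u = 0 →
    ∃ v, th i y v = 0 ∧ sg i y u v ≠ 0

/-- the charts of the manifold `X` -/
def charts (E X : Type*) [TopologicalSpace E] [TopologicalSpace X] [ChartedSpace E X] :
    atlas E X → OpenPartialHomeomorph X E := fun e => e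

/-- the charts `e × id` of the manifold `X × V`, for the charts `e` of `X` -/
def productCharts (E X V : Type*) [TopologicalSpace E] [TopologicalSpace X] [ChartedSpace E X]
    [TopologicalSpace V] : atlas E X → OpenPartialHomeomorph (X × V) (E × V) :=
  fun e => (charts E X e).prod (OpenPartialHomeomorph.refl V)

/-- `X` has a cosymplectic structure -/
def HasCosymplecticStructure (E X : Type*) [NormedAddCommGroup E] [NormedSpace ℝ E]
    [TopologicalSpace X] [ChartedSpace E X] : Prop :=
  ∃ (th : atlas E X → E → E →L[ℝ] ℝ) (sg : atlas E X → E → E →L[ℝ] E →L[ℝ] ℝ),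
    IsCosymplectic (charts E X) th sg

section

variable {E X V ι : Type*} [NormedAddCommGroup E] [NormedSpace ℝ E]
  [NormedAddCommGroup V] [NormedSpace ℝ V] [TopologicalSpace X] [ChartedSpace E X]

/-- the form `w` on `X × V` is invariant under the translations by the vectors `b i` of `V`, that
is, it is a form on the product of `X` with the torus `V / Λ`, `Λ` the lattice spanned by `b` -/
def IsPeriodic (b : ι → V) (w : atlas E X → E × V → (E × V) →L[ℝ] (E × V) →L[ℝ] ℝ) : Prop :=
  ∀ e, ∀ y ∈ (charts E X e).target, ∀ (s : V) (i : ι), w e (y, s + b i) = w e (y, s)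

/-- for each point of `X` (given as the point `y` of a chart `e`), every form in the closed convex
hull of the forms `w e (y, s)`, `s ∈ V`, is nondegenerate -/
def HullNondegenerate (w : atlas E X → E × V → (E × V) →L[ℝ] (E × V) →L[ℝ] ℝ) : Prop :=
  ∀ e, ∀ y ∈ (charts E X e).target, ∀ Φ ∈ closedConvexHull ℝ (range fun s : V => w e (y, s)),
    ∀ u, u ≠ 0 → ∃ v, Φ u v ≠ 0

/-- for each point of `X` (given as the point `y` of a chart `e`) there is an endomorphism `J` with
`w e (y, s) (u, J u) > 0` for all `s ∈ V` and all `u ≠ 0` -/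
def TamesInvariantField (w : atlas E X → E × V → (E × V) →L[ℝ] (E × V) →L[ℝ] ℝ) : Prop :=
  ∀ e, ∀ y ∈ (charts E X e).target, ∃ J : (E × V) →L[ℝ] (E × V),
    ∀ s : V, ∀ u, u ≠ 0 → 0 < w e (y, s) u (J u)

end

/-- `X` closed connected, `V` of odd dimension with basis `b`: `X` has a cosymplectic structure if
and only if `X × V` has a `b`-periodic symplectic form for which all the closed convex hulls
consist of nondegenerate forms, if and only if `X × V` has a `b`-periodic symplectic form that is
positive on a field of endomorphisms not depending on the `V`-coordinate. -/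
theorem result {E X V ι : Type*} [NormedAddCommGroup E] [NormedSpace ℝ E] [FiniteDimensional ℝ E]
    [NormedAddCommGroup V] [NormedSpace ℝ V] [FiniteDimensional ℝ V]
    [TopologicalSpace X] [CompactSpace X] [ConnectedSpace X]
    [ChartedSpace E X] [IsManifold 𝓘(ℝ, E) ∞ X] [Fintype ι] (b : Module.Basis ι ℝ V)
    (hV : Odd (Module.finrank ℝ V)) :
    ((∃ w : atlas E X → E × V → (E × V) →L[ℝ] (E × V) →L[ℝ] ℝ,
        IsSymplectic (productCharts E X V) w ∧ IsPeriodic b w ∧ HullNondegenerate w) ↔
      HasCosymplecticStructure E X) ∧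
    ((∃ w : atlas E X → E × V → (E × V) →L[ℝ] (E × V) →L[ℝ] ℝ,
        IsSymplectic (productCharts E X V) w ∧ IsPeriodic b w ∧ TamesInvariantField w) ↔
      HasCosymplecticStructure E X) := by
  have key : ∀ om : atlas E X → E × V → (E × V) →L[ℝ] (E × V) →L[ℝ] ℝ,
      TH835.HF.Cl om → TH242.TI.Inv om →
      (∀ e : atlas E X, ∀ y ∈ (e : OpenPartialHomeomorph X E).target, ∀ s,
        ∀ u, u ≠ 0 → ∃ v, om e (y, s) u v ≠ 0) → HasCosymplecticStructure E X := by
    intro om h hi hn
    obtain ⟨th, sg, hs⟩ := TH29.OT.forward (E := E) (X := X) (V := V) (om := om) hV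
      (h.toSym hn) hi
    exact ⟨th, sg, ⟨hs.smooth1, hs.smooth2, hs.alt, hs.compat1, hs.compat2, hs.closed1,
      hs.closed2, hs.ne, hs.nondeg⟩⟩
  have back : HasCosymplecticStructure E X →
      ∃ w : atlas E X → E × V → (E × V) →L[ℝ] (E × V) →L[ℝ] ℝ,
      IsSymplectic (productCharts E X V) w ∧ IsPeriodic b w ∧
        ∀ e, ∀ y ∈ (charts E X e).target, ∀ s : V, w e (y, s) = w e (y, 0) := by
    rintro ⟨th, sg, hs⟩
    obtain ⟨w, hw, hi⟩ := TH29.OT.backward (E := E) (X := X) (V := V) (th := th) (sg := sg) hV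
      ⟨hs.smooth1, hs.smooth2, hs.alt, hs.compat1, hs.compat2, hs.closed1,
      hs.closed2, hs.ne, hs.nondeg⟩
    exact ⟨w, ⟨hw.smooth, hw.alt, hw.compat, hw.closed, hw.nondeg⟩,
      fun e y hy s i => (hi e y hy _).trans (hi e y hy s).symm, fun e y hy s => hi e y hy s⟩
  refine ⟨⟨?_, fun hX => ?_⟩, ⟨?_, fun hX => ?_⟩⟩
  · rintro ⟨w, hw, hp, hh⟩
    obtain ⟨om, h1, h2, h3⟩ := TH835.HF.exists_inv b
      (fun (e : atlas E X) (y : E) Φ =>
        Φ ∈ closedConvexHull ℝ (range fun s : V => w e (y, s)))
      (fun e y => TH835.HF.stab_convex convex_closedConvexHull isClosed_closedConvexHull)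
      (om := w) ⟨hw.smooth, hw.alt, hw.compat, hw.closed⟩ hp
      (fun e y hy s => subset_closedConvexHull ⟨s, rfl⟩)
    exact key om h1 h2 fun e y hy s => hh e y hy _ (h3 e y hy s)
  · obtain ⟨w, hw, hp, hi⟩ := back hX
    refine ⟨w, hw, hp, fun e y hy Φ hΦ => ?_⟩
    have h1 : closedConvexHull ℝ (range fun s : V => w e (y, s)) ⊆ {w e (y, 0)} := by
      refine closedConvexHull_min ?_ (convex_singleton _) isClosed_singleton
      rintro _ ⟨s, rfl⟩
      exact hi e y hy s
    rw [h1 hΦ]
    exact hw.nondeg e (y, 0) ⟨hy, mem_univ _⟩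
  · rintro ⟨w, hw, hp, hh⟩
    choose! J hJ using hh
    obtain ⟨om, h1, h2, h3⟩ := TH835.HF.exists_inv b
      (fun (e : atlas E X) (y : E) (Φ : (E × V) →L[ℝ] (E × V) →L[ℝ] ℝ) =>
        ∀ u, u ≠ 0 → 0 < Φ u (J e y u))
      (fun e y => TH835.HF.stab_pos (fun u => J e y u))
      (om := w) ⟨hw.smooth, hw.alt, hw.compat, hw.closed⟩ hp
      (fun e y hy s => hJ e y hy s)
    exact key om h1 h2 fun e y hy s u hu => ⟨J e y u, (h3 e y hy s u hu).ne'⟩
  · obtain ⟨w, hw, hp, hi⟩ := back hX
    refine ⟨w, hw, hp, fun e y hy => ?_⟩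
    have hy' : ((y, (0 : V)) : E × V) ∈ (productCharts E X V e).target := ⟨hy, mem_univ _⟩
    obtain ⟨J, hJ⟩ := TH835.HF.exists_J (Φ := w e (y, 0)) (hw.alt e _ hy') (hw.nondeg e _ hy')
    refine ⟨J, fun s u hu => ?_⟩
    rw [hi e y hy s]
    exact hJ u hu

end Pool.Agent.Results.MP_bf98aa_gt.OddHullForms
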