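import Pool.Agent.TH242.TI.DefT

/-!
# Torus-invariant symplectic forms on products with a torus deform to split forms

`X` is a closed connected smooth manifold and `T = V / Λ` is a torus of even dimension.  A
`T`-invariant form on `X × T` is the same thing as a form on `X × V` that is invariant under the
translations of `V`.  We show that every `T`-invariant symplectic form on `X × T` can be joined,
through `T`-invariant symplectic forms, to a split form `σ + B`, where `σ` is a symplectic form on
`X` and `B` is a constant symplectic form on `V`.  So a homotopy class of nondegenerate `2`-forms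
on `X × T` that contains a `T`-invariant symplectic form contains a split form.
-/

set_option autoImplicit false

open Set
open scoped ContDiff Manifold

namespace Pool.Agent.Results.MP_bf98aa_gt.SplitDeformations

/-- A symplectic form on a manifold `M` that is covered by the charts `c i` with values in `F`.
It is given by its coordinate expressions `w i` in the charts: `w i` is smooth on the image of
`c i`, with values in the bilinear forms on `F`, and
* `alt`: its values are alternating forms (so the `w i` are `2`-forms);
* `compat`: `w i` is the pull-back of `w j` under the transition map `c j ∘ (c i)⁻¹`, so that the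
  `w i` define one `2`-form on `M`;
* `closed`: the exterior derivative `dw(u, v, z) = D_u w(v, z) + D_v w(z, u) + D_z w(u, v)`
  vanishes;
* `nondeg`: the form is nondegenerate at every point. -/
structure IsSymplectic {ι M F : Type*} [TopologicalSpace M] [NormedAddCommGroup F]
    [NormedSpace ℝ F] (c : ι → OpenPartialHomeomorph M F) (w : ι → F → F →L[ℝ] F →L[ℝ] ℝ) :
    Prop where
  smooth : ∀ i, ContDiffOn ℝ ∞ (w i) (c i).target
  alt : ∀ i, ∀ y ∈ (c i).target, ∀ u, w i y u u = 0
  compat : ∀ i j, ∀ x ∈ (c i).source ∩ (c j).source, ∀ u v,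
    w i (c i x) u v = w j (c j x) (fderiv ℝ (c j ∘ (c i).symm) (c i x) u)
      (fderiv ℝ (c j ∘ (c i).symm) (c i x) v)
  closed : ∀ i, ∀ y ∈ (c i).target, ∀ u v z,
    fderiv ℝ (w i) y u v z + fderiv ℝ (w i) y v z u + fderiv ℝ (w i) y z u v = 0
  nondeg : ∀ i, ∀ y ∈ (c i).target, ∀ u, u ≠ 0 → ∃ v, w i y u v ≠ 0

/-- the charts of the manifold `X` -/
def charts (E X : Type*) [TopologicalSpace E] [TopologicalSpace X] [ChartedSpace E X] :
    atlas E X → OpenPartialHomeomorph X E := fun e => e

/-- the charts `e × id` of the manifold `X × V`, for the charts `e` of `X` -/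
def productCharts (E X V : Type*) [TopologicalSpace E] [TopologicalSpace X] [ChartedSpace E X]
    [TopologicalSpace V] : atlas E X → OpenPartialHomeomorph (X × V) (E × V) :=
  fun e => (charts E X e).prod (OpenPartialHomeomorph.refl V)

/-- the form `f` on `X × V`, given in the charts `e × id`, is invariant under the translations of
`V`: its coordinate expressions do not depend on the `V`-coordinate -/
def IsInvariant {E X V G : Type*} [TopologicalSpace E] [TopologicalSpace X] [ChartedSpace E X]
    (f : atlas E X → E × V → G) : Prop :=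
  ∀ e, ∀ y ∈ (charts E X e).target, ∀ s t : V, f e (y, s) = f e (y, t)

/-- the split form `σ + B` on `X × V`, for a `2`-form `σ` on `X` and a constant form `B` on `V` -/
noncomputable def split {E X V : Type*} [NormedAddCommGroup E] [NormedSpace ℝ E]
    [NormedAddCommGroup V] [NormedSpace ℝ V] [TopologicalSpace X] [ChartedSpace E X]
    (σ : atlas E X → E → E →L[ℝ] E →L[ℝ] ℝ) (B : V →L[ℝ] V →L[ℝ] ℝ) :
    atlas E X → E × V → (E × V) →L[ℝ] (E × V) →L[ℝ] ℝ := fun e p =>
  (σ e p.1).bilinearComp (ContinuousLinearMap.fst ℝ E V) (ContinuousLinearMap.fst ℝ E V) +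
    B.bilinearComp (ContinuousLinearMap.snd ℝ E V) (ContinuousLinearMap.snd ℝ E V)

/-- `w` and `w'` are joined by a path `W t`, `0 ≤ t ≤ 1`, of invariant symplectic forms on
`X × V`, whose coordinate expressions are jointly continuous in `t` and the point -/
def Joined {E X V : Type*} [NormedAddCommGroup E] [NormedSpace ℝ E]
    [NormedAddCommGroup V] [NormedSpace ℝ V] [TopologicalSpace X] [ChartedSpace E X]
    (w w' : atlas E X → E × V → (E × V) →L[ℝ] (E × V) →L[ℝ] ℝ) : Prop :=
  ∃ W : ℝ → atlas E X → E × V → (E × V) →L[ℝ] (E × V) →L[ℝ] ℝ,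
    (∀ t ∈ Icc (0 : ℝ) 1, IsSymplectic (productCharts E X V) (W t) ∧ IsInvariant (W t)) ∧
    (∀ e, ContinuousOn (fun z : ℝ × (E × V) => W z.1 e z.2)
      (Icc 0 1 ×ˢ (productCharts E X V e).target)) ∧
    (∀ e, ∀ p ∈ (productCharts E X V e).target, W 0 e p = w e p) ∧
    (∀ e, ∀ p ∈ (productCharts E X V e).target, W 1 e p = w' e p)

/-- For a closed connected manifold `X` and a vector space `V` of even dimension, every symplectic
form on `X × V` that is invariant under the translations of `V` is joined by a path of invariant
symplectic forms to a split form `σ + B`, where `σ` is a symplectic form on `X` and `B` is a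
nondegenerate alternating form on `V`. -/
theorem result {E X V : Type*} [NormedAddCommGroup E] [NormedSpace ℝ E] [FiniteDimensional ℝ E]
    [NormedAddCommGroup V] [NormedSpace ℝ V] [FiniteDimensional ℝ V]
    [TopologicalSpace X] [CompactSpace X] [ConnectedSpace X]
    [ChartedSpace E X] [IsManifold 𝓘(ℝ, E) ∞ X] (hV : Even (Module.finrank ℝ V))
    (w : atlas E X → E × V → (E × V) →L[ℝ] (E × V) →L[ℝ] ℝ)
    (hw : IsSymplectic (productCharts E X V) w) (hi : IsInvariant w) :
    ∃ (σ : atlas E X → E → E →L[ℝ] E →L[ℝ] ℝ) (B : V →L[ℝ] V →L[ℝ] ℝ),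
      IsSymplectic (charts E X) σ ∧ (∀ v, B v v = 0) ∧ (∀ v, v ≠ 0 → ∃ v', B v v' ≠ 0) ∧
        Joined w (split σ B) := by
  obtain ⟨sg, B, W, hs, hB, hBn, hW, hc, h0, h1⟩ := TH242.TI.deform (E := E) (X := X) (V := V)
    (om := w) hV ⟨hw.smooth, hw.alt, hw.compat, hw.closed, hw.nondeg⟩
    (fun e y hy s => hi e y hy s 0)
  refine ⟨sg, B, ⟨hs.smooth, hs.alt, hs.compat, hs.closed, hs.nondeg⟩, hB, hBn, W, ?_, hc, ?_, ?_⟩
  · intro t ht
    have h2 := (hW t ht).1
    exact ⟨⟨h2.smooth, h2.alt, h2.compat, h2.closed, h2.nondeg⟩, fun e y hy s s' =>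
      ((hW t ht).2 e y hy s).trans ((hW t ht).2 e y hy s').symm⟩
  · intro e p hp
    exact ContinuousLinearMap.ext fun a => ContinuousLinearMap.ext fun b => h0 e p hp a b
  · intro e p hp
    exact ContinuousLinearMap.ext fun a => ContinuousLinearMap.ext fun b => h1 e p hp a b

end Pool.Agent.Results.MP_bf98aa_gt.SplitDeformations
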