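import Pool.Agent.TH242.TI.ClsN

/-!
# Cohomology classes of torus-invariant symplectic forms on products with a torus

`X` is a closed smooth manifold and `T = V / Λ` is a torus.  A `T`-invariant form on `X × T` is the
same thing as a form on `X × V` that is invariant under the translations of `V`.  We consider the
classes `[σ₀] + [B]` on `X × T`, where `σ₀` is a closed `2`-form on `X` and `B` is a constant
`2`-form on `V`; when `b₁(X) = 0` these are all classes.  We determine which of them contain a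
`T`-invariant symplectic form: exactly those for which `B` is nondegenerate and the class of `σ₀`
contains a symplectic form on `X`.
-/

set_option autoImplicit false

open Set
open scoped ContDiff Manifold

namespace Pool.Agent.Results.MP_bf98aa_gt.TorusInvariantClasses

/-- A closed `2`-form on a manifold `M` that is covered by the charts `c i` with values in `F`.
It is given by its coordinate expressions `w i` in the charts: `w i` is smooth on the image of
`c i`, with values in the bilinear forms on `F`, and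
* `alt`: its values are alternating forms (so the `w i` are `2`-forms);
* `compat`: `w i` is the pull-back of `w j` under the transition map `c j ∘ (c i)⁻¹`, so that the
  `w i` define one `2`-form on `M`;
* `closed`: the exterior derivative `dw(u, v, z) = D_u w(v, z) + D_v w(z, u) + D_z w(u, v)`
  vanishes. -/
structure IsClosedForm {ι M F : Type*} [TopologicalSpace M] [NormedAddCommGroup F]
    [NormedSpace ℝ F] (c : ι → OpenPartialHomeomorph M F) (w : ι → F → F →L[ℝ] F →L[ℝ] ℝ) :
    Prop where
  smooth : ∀ i, ContDiffOn ℝ ∞ (w i) (c i).target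
  alt : ∀ i, ∀ y ∈ (c i).target, ∀ u, w i y u u = 0
  compat : ∀ i j, ∀ x ∈ (c i).source ∩ (c j).source, ∀ u v,
    w i (c i x) u v = w j (c j x) (fderiv ℝ (c j ∘ (c i).symm) (c i x) u)
      (fderiv ℝ (c j ∘ (c i).symm) (c i x) v)
  closed : ∀ i, ∀ y ∈ (c i).target, ∀ u v z,
    fderiv ℝ (w i) y u v z + fderiv ℝ (w i) y v z u + fderiv ℝ (w i) y z u v = 0

/-- A symplectic form: a closed `2`-form that is nondegenerate at every point. -/
def IsSymplectic {ι M F : Type*} [TopologicalSpace M] [NormedAddCommGroup F]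
    [NormedSpace ℝ F] (c : ι → OpenPartialHomeomorph M F) (w : ι → F → F →L[ℝ] F →L[ℝ] ℝ) :
    Prop :=
  IsClosedForm c w ∧ ∀ i, ∀ y ∈ (c i).target, ∀ u, u ≠ 0 → ∃ v, w i y u v ≠ 0

/-- A `1`-form on a manifold, given by its smooth coordinate expressions `θ i` in the charts `c i`,
which are related by pull-back under the transition maps. -/
structure IsOneForm {ι M F : Type*} [TopologicalSpace M] [NormedAddCommGroup F]
    [NormedSpace ℝ F] (c : ι → OpenPartialHomeomorph M F) (θ : ι → F → F →L[ℝ] ℝ) : Prop where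
  smooth : ∀ i, ContDiffOn ℝ ∞ (θ i) (c i).target
  compat : ∀ i j, ∀ x ∈ (c i).source ∩ (c j).source, ∀ u,
    θ i (c i x) u = θ j (c j x) (fderiv ℝ (c j ∘ (c i).symm) (c i x) u)

/-- `w = w₀ + dθ` in all charts, where `dθ(u, v) = D_u θ(v) - D_v θ(u)` -/
def DiffersBy {ι M F : Type*} [TopologicalSpace M] [NormedAddCommGroup F]
    [NormedSpace ℝ F] (c : ι → OpenPartialHomeomorph M F) (w w₀ : ι → F → F →L[ℝ] F →L[ℝ] ℝ)
    (θ : ι → F → F →L[ℝ] ℝ) : Prop :=
  ∀ i, ∀ y ∈ (c i).target, ∀ u v,
    w i y u v = w₀ i y u v + (fderiv ℝ (θ i) y u v - fderiv ℝ (θ i) y v u)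

/-- the charts of the manifold `X` -/
def charts (E X : Type*) [TopologicalSpace E] [TopologicalSpace X] [ChartedSpace E X] :
    atlas E X → OpenPartialHomeomorph X E := fun e => e

/-- the charts `e × id` of the manifold `X × V`, for the charts `e` of `X` -/
def productCharts (E X V : Type*) [TopologicalSpace E] [TopologicalSpace X] [ChartedSpace E X]
    [TopologicalSpace V] : atlas E X → OpenPartialHomeomorph (X × V) (E × V) :=
  fun e => (charts E X e).prod (OpenPartialHomeomorph.refl V)

/-- the form `f` on `X × V`, given in the charts `e × id`, is invariant under the translations of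
`V`: its coordinate expressions do not depend on the `V`-coordinate -/
def IsInvariant {E X V G : Type*} [TopologicalSpace E] [TopologicalSpace X] [ChartedSpace E X]
    (f : atlas E X → E × V → G) : Prop :=
  ∀ e, ∀ y ∈ (charts E X e).target, ∀ s t : V, f e (y, s) = f e (y, t)

/-- the form `σ₀ + B` on `X × V`, for a `2`-form `σ₀` on `X` and a constant form `B` on `V` -/
noncomputable def sum {E X V : Type*} [NormedAddCommGroup E] [NormedSpace ℝ E]
    [NormedAddCommGroup V] [NormedSpace ℝ V] [TopologicalSpace X] [ChartedSpace E X]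
    (σ₀ : atlas E X → E → E →L[ℝ] E →L[ℝ] ℝ) (B : V →L[ℝ] V →L[ℝ] ℝ) :
    atlas E X → E × V → (E × V) →L[ℝ] (E × V) →L[ℝ] ℝ := fun e p =>
  (σ₀ e p.1).bilinearComp (ContinuousLinearMap.fst ℝ E V) (ContinuousLinearMap.fst ℝ E V) +
    B.bilinearComp (ContinuousLinearMap.snd ℝ E V) (ContinuousLinearMap.snd ℝ E V)

/-- the class of `σ₀` contains a symplectic form on `X` -/
def ClassHasSymplecticForm {E X : Type*} [NormedAddCommGroup E] [NormedSpace ℝ E]
    [TopologicalSpace X] [ChartedSpace E X] (σ₀ : atlas E X → E → E →L[ℝ] E →L[ℝ] ℝ) : Prop :=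
  ∃ w, IsSymplectic (charts E X) w ∧
    ∃ θ, IsOneForm (charts E X) θ ∧ DiffersBy (charts E X) w σ₀ θ

/-- the invariant class of `w₀` contains an invariant symplectic form on `X × V`: there is an
invariant symplectic form that differs from `w₀` by `dθ`, for an invariant `1`-form `θ` -/
def ClassHasInvariantSymplecticForm {E X V : Type*} [NormedAddCommGroup E] [NormedSpace ℝ E]
    [NormedAddCommGroup V] [NormedSpace ℝ V] [TopologicalSpace X] [ChartedSpace E X]
    (w₀ : atlas E X → E × V → (E × V) →L[ℝ] (E × V) →L[ℝ] ℝ) : Prop :=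
  ∃ w, IsSymplectic (productCharts E X V) w ∧ IsInvariant w ∧
    ∃ θ, IsOneForm (productCharts E X V) θ ∧ IsInvariant θ ∧
      DiffersBy (productCharts E X V) w w₀ θ

/-- For a closed manifold `X`, a closed `2`-form `σ₀` on `X` and a constant `2`-form `B` on `V`, the
invariant class of `σ₀ + B` on `X × V` contains an invariant symplectic form if and only if `B` is
nondegenerate and the class of `σ₀` contains a symplectic form on `X`. -/
theorem result {E X V : Type*} [NormedAddCommGroup E] [NormedSpace ℝ E] [FiniteDimensional ℝ E]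
    [NormedAddCommGroup V] [NormedSpace ℝ V] [FiniteDimensional ℝ V]
    [TopologicalSpace X] [CompactSpace X] [Nonempty X]
    [ChartedSpace E X] [IsManifold 𝓘(ℝ, E) ∞ X]
    (σ₀ : atlas E X → E → E →L[ℝ] E →L[ℝ] ℝ) (_hσ₀ : IsClosedForm (charts E X) σ₀)
    (B : V →L[ℝ] V →L[ℝ] ℝ) (hB : ∀ v, B v v = 0) :
    ClassHasInvariantSymplecticForm (sum σ₀ B) ↔
      (∀ v, v ≠ 0 → ∃ v', B v v' ≠ 0) ∧ ClassHasSymplecticForm σ₀ := by
  constructor
  · rintro ⟨w, hw, hi, θ, hθ, hθi, hd⟩
    have h1 : TH242.TI.Sym (fun e : atlas E X => TH242.TI.pc V (e : OpenPartialHomeomorph X E)) w :=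
      ⟨hw.1.smooth, hw.1.alt, hw.1.compat, hw.1.closed, hw.2⟩
    have h2 : TH242.TI.One
        (fun e : atlas E X => TH242.TI.pc V (e : OpenPartialHomeomorph X E)) θ :=
      ⟨hθ.smooth, hθ.compat⟩
    have hBn : TH242.TI.ND B :=
      TH242.TI.B_nondeg (s0 := σ₀) h1 h2 (fun e y hy s => hθi e y hy s 0) hd
    refine ⟨hBn, ?_⟩
    obtain ⟨sg, hs, eta, he, hse⟩ := TH242.TI.cls_forward (s0 := σ₀) hBn h1
      (fun e y hy s => hi e y hy s 0) h2 (fun e y hy s => hθi e y hy s 0) hd
    exact ⟨sg, ⟨⟨hs.smooth, hs.alt, hs.compat, hs.closed⟩, hs.nondeg⟩, eta,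
      ⟨he.smooth, he.compat⟩, hse⟩
  · rintro ⟨hBn, w, hw, θ, hθ, hd⟩
    have h1 : TH242.TI.Sym (fun e : atlas E X => (e : OpenPartialHomeomorph X E)) w :=
      ⟨hw.1.smooth, hw.1.alt, hw.1.compat, hw.1.closed, hw.2⟩
    have h2 : TH242.TI.One (fun e : atlas E X => (e : OpenPartialHomeomorph X E)) θ :=
      ⟨hθ.smooth, hθ.compat⟩
    have h3 := TH242.TI.bk_Sym (V := V) hB hBn h1
    have h4 := TH242.TI.pb_One (V := V) h2
    refine ⟨TH242.TI.bk B w, ⟨⟨h3.smooth, h3.alt, h3.compat, h3.closed⟩, h3.nondeg⟩,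
      fun e y _ s t => rfl, TH242.TI.pb V θ, ⟨h4.smooth, h4.compat⟩, fun e y _ s t => rfl, ?_⟩
    intro e p hp a b
    rw [TH242.TI.pb_der h2 e hp.1, TH242.TI.pb_der h2 e hp.1, TH242.TI.bk_apply,
      hd e p.1 hp.1 a.1 b.1]
    show _ = σ₀ e p.1 a.1 b.1 + B a.2 b.2 + _
    ring

end Pool.Agent.Results.MP_bf98aa_gt.TorusInvariantClasses
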